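import Pool.Agent.H15.HLU.Targets

/-!
# Homogeneous latin squares, uniform version: the class map
-/

namespace Pool.Agent.H60.HLU

open Pool.Agent.H51.Homog Pool.Agent.H22.HSQ Pool.Agent.H15.HLS Pool.Agent.H15.HLU

theorem pf_GF2 (hRE2 : T_RE2) : T_GF2 := by
  intro k a₁ s₁ a₂ s₂ v hk hv
  have : NeZero k := ⟨by omega⟩
  have hC : Fintype.card (ZMod k × (Fin a₁ ⊕ Fin a₂)) = k * (a₁ + a₂) := by simp [ZMod.card]
  let f : (ZMod k × (Fin a₁ ⊕ Fin a₂)) ≃ Fin (k * (a₁ + a₂)) := Fintype.equivFinOfCardEq hC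
  let cl : ZMod k × ((Fin a₁ × Fin s₁) ⊕ (Fin a₂ × Fin s₂)) → ZMod k × (Fin a₁ ⊕ Fin a₂) :=
    fun t => (t.1, Sum.map Prod.fst Prod.fst t.2)
  let q : ℕ → ℕ := fun x => x + 4 * (k * (a₁ + a₂)) * x ^ 2
  let p : ZMod k × (Fin a₁ ⊕ Fin a₂) → ZMod v := fun z => ((q (f z).val : ℕ) : ZMod v)
  have hqm : StrictMono q := by
    intro x y hxy
    have h1 : x ^ 2 ≤ y ^ 2 := Nat.pow_le_pow_left hxy.le 2
    have h2 := Nat.mul_le_mul_left (4 * (k * (a₁ + a₂))) h1
    show x + 4 * (k * (a₁ + a₂)) * x ^ 2 < y + 4 * (k * (a₁ + a₂)) * y ^ 2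
    omega
  have hp : Function.Injective p := by
    intro z z' h
    have h1 := (ZMod.natCast_eq_natCast_iff _ _ _).1 h
    have lt : ∀ z, q (f z).val < v := by
      intro z
      have h2 : (f z).val ≤ k * (a₁ + a₂) := (f z).isLt.le
      have h3 : q (f z).val ≤ q (k * (a₁ + a₂)) := hqm.monotone h2
      have h4 : q (k * (a₁ + a₂)) ≤ 16 * (k * (a₁ + a₂) + 1) ^ 3 := by
        show k * (a₁ + a₂) + 4 * (k * (a₁ + a₂)) * (k * (a₁ + a₂)) ^ 2 ≤ _
        generalize k * (a₁ + a₂) = t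
        nlinarith [Nat.zero_le (t ^ 3), Nat.zero_le (t ^ 2), Nat.zero_le t]
      omega
    have h2 : q (f z).val = q (f z').val := Nat.ModEq.eq_of_lt_of_lt h1 (lt z) (lt z')
    exact f.injective (Fin.ext (hqm.injective h2))
  refine ⟨fun t => p (cl t), ?_, ?_⟩
  · intro c
    by_cases hc : ∃ z, p z = c
    swap
    · left
      have : IsEmpty (Fib (fun t => p (cl t)) c) := ⟨fun t => hc ⟨_, t.2⟩⟩
      exact Nat.card_of_isEmpty
    obtain ⟨⟨i, j⟩, rfl⟩ := hc
    rcases j with j | j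
    · right; left
      refine (Nat.card_congr (Equiv.symm (Equiv.ofBijective (fun u : Fin s₁ =>
        (⟨(i, Sum.inl (j, u)), rfl⟩ : Fib (fun t => p (cl t)) (p (i, Sum.inl j))))
        ⟨?_, ?_⟩))).trans (Nat.card_fin s₁)
      · intro u u' h
        simpa using h
      · rintro ⟨⟨i', t⟩, ht⟩
        have h1 := hp ht
        rcases t with ⟨j', u⟩ | ⟨j', u⟩
        · simp only [cl, Sum.map_inl, Prod.mk.injEq, Sum.inl.injEq] at h1
          obtain ⟨rfl, rfl⟩ := h1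
          exact ⟨u, rfl⟩
        · simp [cl] at h1
    · right; right
      refine (Nat.card_congr (Equiv.symm (Equiv.ofBijective (fun u : Fin s₂ =>
        (⟨(i, Sum.inr (j, u)), rfl⟩ : Fib (fun t => p (cl t)) (p (i, Sum.inr j))))
        ⟨?_, ?_⟩))).trans (Nat.card_fin s₂)
      · intro u u' h
        simpa using h
      · rintro ⟨⟨i', t⟩, ht⟩
        have h1 := hp ht
        rcases t with ⟨j', u⟩ | ⟨j', u⟩
        · simp [cl] at h1
        · simp only [cl, Sum.map_inr, Prod.mk.injEq, Sum.inr.injEq] at h1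
          obtain ⟨rfl, rfl⟩ := h1
          exact ⟨u, rfl⟩
  · intro s t u h
    obtain ⟨h1, h2⟩ := hRE2 (k * (a₁ + a₂)) v (f (cl s)).val (f (cl t)).val (f (cl u)).val hv
      (f (cl s)).isLt (f (cl t)).isLt (f (cl u)).isLt h
    have e1 : cl s = cl t := f.injective (Fin.ext h1)
    have e2 : cl t = cl u := f.injective (Fin.ext h2)
    exact ⟨(congrArg Prod.fst e1 : (cl s).1 = (cl t).1), (congrArg Prod.fst e2 : (cl t).1 = (cl u).1)⟩

end Pool.Agent.H60.HLU
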